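import Pool.Agent.OSG.Fin2

/-!
MP_7fa120_al: limiting divisibility densities of subgroup orders in `S_n`.

The densities for the subgroups of `S_n` all of whose orbits have at most three points (`Short`). `dens n m` is the
proportion of these subgroups whose order is a multiple of `m`. It tends to `1` for `m = 2 ^ a`; for `m = 3 * 2 ^ a` it
tends to `0` along even `n` and to `1` along odd `n`, so there is no limit; for all other `m` it tends to `0`.
-/

namespace Pool.Agent.KeptShortOrbits

open Filter Topology Pool.Agent.OSG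

theorem result : (∀ a : ℕ, Tendsto (fun n => dens n (2 ^ a)) atTop (𝓝 1)) ∧
    (∀ a : ℕ, Tendsto (fun n => dens (2 * n) (3 * 2 ^ a)) atTop (𝓝 0) ∧
      Tendsto (fun n => dens (2 * n + 1) (3 * 2 ^ a)) atTop (𝓝 1)) ∧
    ∀ m : ℕ, (∀ a, m ≠ 2 ^ a ∧ m ≠ 3 * 2 ^ a) → Tendsto (fun n => dens n m) atTop (𝓝 0) :=
  main

end Pool.Agent.KeptShortOrbits
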